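import Mathlib
import Pool.Agent.R582.ZZ.NonNull

/-!
# MP_3ec723_lc, Q1: `non(𝒩) < 𝔷` is consistent
-/

namespace Pool.Agent.Results.MP_3ec723_lc.NonLtZed

open Cardinal Set MeasureTheory
open Pool.Agent.R582.Rand (MAlg coins)
open Pool.Agent.R582.ZZ

/-- (1) If Martin's axiom holds and `ℵ₁ < 𝔠`, `W` has `ℵ₁` elements, and `C` is a well-ordered set with
`𝔠` elements all of whose proper initial segments have fewer than `𝔠` elements, then every condition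
of the measure algebra of `2 ^ (W × ℕ)` (adding `ℵ₁` random reals) forces `Hyp2 W C`. (2) There are such
`W` and `C`. (3) In ZFC, `Hyp2 W C` implies that `non(𝒩) < 𝔷`; moreover `non(𝒩) ≤ |W|` and
`𝔷 = 𝔠 > ℵ₁`. -/
theorem result :
    (MartinAxiom → ℵ_ 1 < (𝔠 : Cardinal.{0}) → ∀ (W C : Type) [LinearOrder C]
      [WellFoundedLT C], #W = ℵ_ 1 → #C = 𝔠 → (∀ c : C, #(Iio c) < 𝔠) →
      ∀ p : MAlg (coins (W × ℕ)), p ∈ Hyp2N (MAlg (coins (W × ℕ))) W C) ∧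
    (∃ (W C : Type) (_ : LinearOrder C), WellFoundedLT C ∧ #W = ℵ_ 1 ∧ #C = 𝔠 ∧
      ∀ c : C, #(Iio c) < 𝔠) ∧
    (∀ (W C : Type) [LinearOrder C], Hyp2 W C →
      nonN < zed ∧ nonN ≤ #W ∧ zed = 𝔠 ∧ ℵ_ 1 < (𝔠 : Cardinal.{0})) := by
  refine ⟨fun hMA hCH W C _ _ hW hC hCi p => hyp2N_forced hMA hW hC hCi hCH p, ?_,
    fun W C _ h => ⟨nonN_lt_zed h.1 h.2, nonN_le h.2, zed_eq h.1⟩⟩
  refine ⟨(ℵ_ 1 : Cardinal.{0}).ord.ToType, (𝔠 : Cardinal.{0}).ord.ToType, inferInstance,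
    inferInstance, Cardinal.mk_ord_toType _, Cardinal.mk_ord_toType _, fun c => ?_⟩
  exact Cardinal.mk_Iio_ord_toType c

end Pool.Agent.Results.MP_3ec723_lc.NonLtZed
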